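import Pool.Agent.R237.NH.Hilb

/-!
# Local propagation for quadratically hyponormal operator valued weighted shifts
-/

set_option autoImplicit false

open scoped InnerProductSpace

namespace Pool.Agent.R237.MS

universe u

variable {V : Type u} [NormedAddCommGroup V] [InnerProductSpace ℂ V] [CompleteSpace V]

/-- The space `ℓ²(V)`. -/
abbrev LV (V : Type u) [NormedAddCommGroup V] : Type u := lp (fun _ : ℕ => V) 2

omit [CompleteSpace V] [InnerProductSpace ℂ V] in
theorem hasSum_sq (f : LV V) : HasSum (fun m => ‖f m‖ ^ 2) (‖f‖ ^ 2) := by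
  have h := lp.hasSum_norm (p := 2) (by norm_num) f
  simpa using h

omit [CompleteSpace V] [InnerProductSpace ℂ V] in
theorem norm_sq_eq (f : LV V) (s : Finset ℕ) (hs : ∀ m ∉ s, f m = 0) :
    ‖f‖ ^ 2 = ∑ m ∈ s, ‖f m‖ ^ 2 := by
  refine (hasSum_sq f).unique (hasSum_sum_of_ne_finset_zero fun m hm => ?_)
  rw [hs m hm]; simp

omit [CompleteSpace V] [InnerProductSpace ℂ V] in
theorem sum_le_norm_sq (f : LV V) (s : Finset ℕ) : ∑ m ∈ s, ‖f m‖ ^ 2 ≤ ‖f‖ ^ 2 :=
  sum_le_hasSum s (fun m _ => sq_nonneg _) (hasSum_sq f)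

/-- Hyponormality, in norm form. -/
def NormHypo (P : LV V →L[ℂ] LV V) : Prop := ∀ h, ‖ContinuousLinearMap.adjoint P h‖ ≤ ‖P h‖

/-- `T` is the weighted shift with weights `A n`. -/
def IsShift (A : ℕ → V →L[ℂ] V) (T : LV V →L[ℂ] LV V) : Prop :=
  ∀ h : LV V, T h 0 = 0 ∧ ∀ n, T h (n + 1) = A n (h n)

variable {A : ℕ → V →L[ℂ] V} {T : LV V →L[ℂ] LV V}

theorem shift_single (hT : IsShift A T) (n : ℕ) (v : V) :
    T (lp.single 2 n v) = lp.single 2 (n + 1) (A n v) := by
  ext m
  rcases m with _ | m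
  · rw [(hT _).1, lp.single_apply, Pi.single_eq_of_ne (by omega)]
  · rw [(hT _).2, lp.single_apply, lp.single_apply]
    by_cases hm : m = n
    · subst hm; simp
    · rw [Pi.single_eq_of_ne hm, Pi.single_eq_of_ne (by omega), map_zero]

theorem adjoint_apply (hT : IsShift A T) (hs : ∀ n u v, ⟪A n u, v⟫_ℂ = ⟪u, A n v⟫_ℂ)
    (h : LV V) (m : ℕ) : ContinuousLinearMap.adjoint T h m = A m (h (m + 1)) := by
  refine ext_inner_left ℂ fun v => ?_
  have h1 := lp.inner_single_left (𝕜 := ℂ) (G := fun _ : ℕ => V) m v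
    (ContinuousLinearMap.adjoint T h)
  have h2 := lp.inner_single_left (𝕜 := ℂ) (G := fun _ : ℕ => V) (m + 1) (A m v) h
  refine h1.symm.trans ?_
  rw [ContinuousLinearMap.adjoint_inner_right, shift_single hT]
  exact h2.trans (hs m v _)

/-- The explicit test vector. -/
noncomputable def test (k : ℕ) (s : ℂ) (g x y f : V) : LV V :=
  lp.single 2 k (s • g) + lp.single 2 (k + 1) (-x) + lp.single 2 (k + 2) (s⁻¹ • y) +
    lp.single 2 (k + 3) (-x) + lp.single 2 (k + 4) (s • f)

omit [CompleteSpace V] in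
theorem test_apply (k : ℕ) (s : ℂ) (g x y f : V) (m : ℕ) :
    test k s g x y f m = (if m = k then s • g else 0) + (if m = k + 1 then -x else 0) +
      (if m = k + 2 then s⁻¹ • y else 0) + (if m = k + 3 then -x else 0) +
      (if m = k + 4 then s • f else 0) := by
  simp only [test, lp.coeFn_add, Pi.add_apply, lp.single_apply, Pi.single_apply]

/-- The key inequality. -/
theorem key (hT : IsShift A T) (hs : ∀ n u v, ⟪A n u, v⟫_ℂ = ⟪u, A n v⟫_ℂ)
    (hq : ∀ l : ℂ, NormHypo (T + l • T ^ 2)) (k : ℕ) (x y g : V)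
    (h1 : A (k + 1) y = x) (h2 : A (k + 2) y = x) (h3 : A (k + 1) x = A (k + 2) x)
    (h4 : A (k + 1) (A (k + 1) x) = A (k + 2) (A (k + 1) x))
    (hg : A k g = A (k + 1) (A (k + 1) x)) :
    A (k + 3) (A (k + 3) x) = A (k + 1) (A (k + 1) x) ∧
      ∀ j, k = j + 1 → A j g = A j (A k x) := by
  set G : V := A (k + 1) (A (k + 1) x) with hG
  set f : V := A (k + 3) x with hf
  -- the error constant
  set K : ℝ := ‖A (k + 1) G‖ ^ 2 + ‖A (k + 5) (A (k + 4) f)‖ ^ 2 with hK
  -- the basic inequality for a real parameter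
  have hmain : ∀ s : ℝ, 0 < s → ∀ c : ℝ, (∀ j, k = j + 1 → c ≤ ‖A j (g - A k x)‖ ^ 2) → (k = 0 → c = 0) →
      ‖A (k + 3) f - G‖ ^ 2 + c ≤ s ^ 2 * K := by
    intro s hs0 c hc hc0
    set σ : ℂ := (s : ℂ) with hσ
    have hσ0 : σ ≠ 0 := by rw [hσ]; exact_mod_cast hs0.ne'
    have hσn : ‖σ‖ = s := by rw [hσ, Complex.norm_real, Real.norm_of_nonneg hs0.le]
    set h : LV V := test k σ g x y f with hh
    have hh0 : ∀ m, m < k → h m = 0 := by
      intro m hm
      rw [hh, test_apply, if_neg (by omega), if_neg (by omega), if_neg (by omega),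
        if_neg (by omega), if_neg (by omega)]
      simp
    have hhk : h k = σ • g := by
      rw [hh, test_apply, if_pos rfl, if_neg (by omega), if_neg (by omega),
        if_neg (by omega), if_neg (by omega)]
      simp
    have hhk1 : h (k + 1) = -x := by
      rw [hh, test_apply, if_neg (by omega), if_pos rfl, if_neg (by omega),
        if_neg (by omega), if_neg (by omega)]
      simp
    have hhk2 : h (k + 2) = σ⁻¹ • y := by
      rw [hh, test_apply, if_neg (by omega), if_neg (by omega), if_pos rfl,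
        if_neg (by omega), if_neg (by omega)]
      simp
    have hhk3 : h (k + 3) = -x := by
      rw [hh, test_apply, if_neg (by omega), if_neg (by omega), if_neg (by omega), if_pos rfl,
        if_neg (by omega)]
      simp
    have hhk4 : h (k + 4) = σ • f := by
      rw [hh, test_apply, if_neg (by omega), if_neg (by omega), if_neg (by omega),
        if_neg (by omega), if_pos rfl]
      simp
    have hh5 : ∀ m, k + 4 < m → h m = 0 := by
      intro m hm
      rw [hh, test_apply, if_neg (by omega), if_neg (by omega), if_neg (by omega),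
        if_neg (by omega), if_neg (by omega)]
      simp
    set P : LV V →L[ℂ] LV V := T + σ • T ^ 2 with hP
    have hPh : P h = T h + σ • T (T h) := by
      rw [hP, add_apply, smul_apply, sq]; rfl
    have hP0 : P h 0 = 0 := by
      rw [hPh, lp.coeFn_add, lp.coeFn_smul, Pi.add_apply, Pi.smul_apply, (hT _).1, (hT _).1]; simp
    have hPs : ∀ m, P h (m + 1) = A m (h m + σ • T h m) := by
      intro m
      rw [hPh, lp.coeFn_add, lp.coeFn_smul, Pi.add_apply, Pi.smul_apply, (hT _).2, (hT _).2,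
        map_add, map_smul]
    have hTk : ∀ m, m ≤ k → T h m = 0 := by
      intro m hm
      rcases m with _ | m
      · exact (hT _).1
      · rw [(hT _).2, hh0 m (by omega), map_zero]
    -- coordinates of `P h`
    have e1 : P h (k + 1) = σ • G := by
      rw [hPs, hhk, hTk k le_rfl, smul_zero, add_zero, map_smul, hg]
    have e2 : P h (k + 2) = A (k + 1) (-x + (σ ^ 2) • G) := by
      rw [show k + 2 = (k + 1) + 1 from rfl, hPs, hhk1, (hT _).2, hhk, map_smul, hg, smul_smul, sq]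
    have e3 : P h (k + 3) = σ⁻¹ • x - σ • G := by
      rw [show k + 3 = (k + 2) + 1 from rfl, hPs, hhk2, show k + 2 = (k + 1) + 1 from rfl,
        (hT _).2, hhk1, map_add, map_smul, map_smul, show k + 1 + 1 = k + 2 from rfl, h2, map_neg,
        map_neg, ← h4, smul_neg, sub_eq_add_neg]
    have e4 : P h (k + 4) = 0 := by
      rw [show k + 4 = (k + 3) + 1 from rfl, hPs, hhk3, show k + 3 = (k + 2) + 1 from rfl,
        (hT _).2, hhk2, map_smul, h2, smul_smul, mul_inv_cancel₀ hσ0, one_smul, neg_add_cancel,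
        map_zero]
    have e5 : P h (k + 5) = 0 := by
      rw [show k + 5 = (k + 4) + 1 from rfl, hPs, hhk4, show k + 4 = (k + 3) + 1 from rfl,
        (hT _).2, hhk3, map_neg, ← hf, smul_neg, add_neg_cancel, map_zero]
    have e6 : P h (k + 6) = (σ ^ 2) • A (k + 5) (A (k + 4) f) := by
      rw [show k + 6 = (k + 5) + 1 from rfl, hPs, hh5 (k + 5) (by omega),
        show k + 5 = (k + 4) + 1 from rfl, (hT _).2, hhk4, zero_add, map_smul, map_smul, map_smul,
        smul_smul, sq]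
    have e7 : ∀ m, k + 5 < m → P h (m + 1) = 0 := by
      intro m hm
      rw [hPs, hh5 m (by omega)]
      obtain ⟨m', rfl⟩ : ∃ m', m = m' + 1 := ⟨m - 1, by omega⟩
      rw [(hT _).2, hh5 m' (by omega), map_zero, smul_zero, add_zero, map_zero]
    have e8 : ∀ m, m < k + 1 → P h m = 0 := by
      intro m hm
      rcases m with _ | m
      · exact hP0
      · rw [hPs, hh0 m (by omega), hTk m (by omega), smul_zero, add_zero, map_zero]
    have hnP : ‖P h‖ ^ 2 = ‖P h (k + 1)‖ ^ 2 + ‖P h (k + 2)‖ ^ 2 + ‖P h (k + 3)‖ ^ 2 +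
        ‖P h (k + 6)‖ ^ 2 := by
      rw [norm_sq_eq (P h) {k + 1, k + 2, k + 3, k + 6}]
      · rw [Finset.sum_insert (by simp), Finset.sum_insert (by simp), Finset.sum_insert (by simp),
          Finset.sum_singleton]
        ring
      · intro m hm
        simp only [Finset.mem_insert, Finset.mem_singleton, not_or] at hm
        obtain ⟨a1, a2, a3, a4⟩ := hm
        by_cases b1 : m < k + 1
        · exact e8 m b1
        by_cases b2 : m = k + 4
        · rw [b2]; exact e4
        by_cases b3 : m = k + 5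
        · rw [b3]; exact e5
        obtain ⟨m', rfl⟩ : ∃ m', m = m' + 1 := ⟨m - 1, by omega⟩
        exact e7 m' (by omega)
    -- coordinates of the adjoint
    set Q : LV V →L[ℂ] LV V := ContinuousLinearMap.adjoint P with hQ
    have hQh : Q h = ContinuousLinearMap.adjoint T h +
        σ • ContinuousLinearMap.adjoint T (ContinuousLinearMap.adjoint T h) := by
      have c1 : (starRingEnd ℂ) σ = σ := by rw [hσ, Complex.conj_ofReal]
      rw [hQ, hP, map_add, map_smulₛₗ, c1, sq, ContinuousLinearMap.mul_def,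
        ContinuousLinearMap.adjoint_comp]
      rfl
    have hQs : ∀ m, Q h m = A m (h (m + 1) + σ • A (m + 1) (h (m + 2))) := by
      intro m
      rw [hQh, lp.coeFn_add, lp.coeFn_smul, Pi.add_apply, Pi.smul_apply, adjoint_apply hT hs,
        adjoint_apply hT hs, adjoint_apply hT hs, map_add, map_smul]
    have f1 : Q h (k + 3) = σ • A (k + 3) f := by
      rw [hQs, show k + 3 + 1 = k + 4 from rfl, show k + 3 + 2 = k + 5 from rfl, hhk4,
        hh5 (k + 5) (by omega), map_zero, smul_zero, add_zero, map_smul]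
    have f2 : Q h (k + 2) = A (k + 2) (-x + (σ ^ 2) • A (k + 3) f) := by
      rw [hQs, show k + 2 + 1 = k + 3 from rfl, show k + 2 + 2 = k + 4 from rfl, hhk3, hhk4,
        map_smul, smul_smul, sq]
    have f3 : Q h (k + 1) = σ⁻¹ • x - σ • G := by
      rw [hQs, show k + 1 + 1 = k + 2 from rfl, show k + 1 + 2 = k + 3 from rfl, hhk2, hhk3,
        map_add, map_smul, map_smul, h1, map_neg, map_neg, ← h3, smul_neg, sub_eq_add_neg]
    have f4 : ∀ j, k = j + 1 → Q h j = σ • A j (g - A k x) := by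
      intro j hj
      rw [hQs, ← hj, show j + 2 = k + 1 by omega, hhk, hhk1, map_neg, smul_neg, ← sub_eq_add_neg,
        ← smul_sub, map_smul]
    have hnQ : s ^ 2 * ‖A (k + 3) f‖ ^ 2 + ‖Q h (k + 2)‖ ^ 2 + ‖Q h (k + 1)‖ ^ 2 + s ^ 2 * c ≤
        ‖Q h‖ ^ 2 := by
      have g1 : ‖Q h (k + 3)‖ ^ 2 = s ^ 2 * ‖A (k + 3) f‖ ^ 2 := by
        rw [f1, norm_smul, hσn, mul_pow]
      rcases Nat.eq_zero_or_pos k with hk | hk
      · have := sum_le_norm_sq (Q h) {k + 1, k + 2, k + 3}
        rw [Finset.sum_insert (by simp), Finset.sum_insert (by simp),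
          Finset.sum_singleton] at this
        rw [hc0 hk]
        linarith
      · obtain ⟨j, hj⟩ : ∃ j, k = j + 1 := ⟨k - 1, by omega⟩
        have := sum_le_norm_sq (Q h) {j, k + 1, k + 2, k + 3}
        rw [Finset.sum_insert (by simp; omega), Finset.sum_insert (by simp),
          Finset.sum_insert (by simp), Finset.sum_singleton] at this
        have g2 : ‖Q h j‖ ^ 2 = s ^ 2 * ‖A j (g - A k x)‖ ^ 2 := by
          rw [f4 j hj, norm_smul, hσn, mul_pow]
        have g3 : s ^ 2 * c ≤ s ^ 2 * ‖A j (g - A k x)‖ ^ 2 := by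
          gcongr
          exact hc j hj
        linarith
    have hle : ‖Q h‖ ^ 2 ≤ ‖P h‖ ^ 2 := by
      gcongr
      exact hq σ h
    -- expand
    have i1 : ‖P h (k + 2)‖ ^ 2 = ‖A (k + 1) x‖ ^ 2 - 2 * s ^ 2 * ‖G‖ ^ 2 +
        s ^ 4 * ‖A (k + 1) G‖ ^ 2 := by
      rw [e2, map_add, map_neg, map_smul, neg_add_eq_sub, @norm_sub_sq ℂ, inner_smul_left, hs,
        ← hG, norm_smul, norm_pow, hσn, map_pow, hσ, Complex.conj_ofReal,
        inner_self_eq_norm_sq_to_K]
      have : (RCLike.re ((s : ℂ) ^ 2 * (‖G‖ : ℂ) ^ 2) : ℝ) = s ^ 2 * ‖G‖ ^ 2 := by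
        rw [← Complex.ofReal_pow, ← Complex.ofReal_pow, ← Complex.ofReal_mul]
        exact Complex.ofReal_re _
      have this' : RCLike.re ((s : ℂ) ^ 2 * ((‖G‖ : ℝ) : ℂ) ^ 2) = s ^ 2 * ‖G‖ ^ 2 := this
      simp only [RCLike.ofReal_eq_complex_ofReal] 
      rw [this']
      ring
    have i2 : ‖Q h (k + 2)‖ ^ 2 = ‖A (k + 1) x‖ ^ 2 - 2 * s ^ 2 * (⟪G, A (k + 3) f⟫_ℂ).re +
        s ^ 4 * ‖A (k + 2) (A (k + 3) f)‖ ^ 2 := by
      have j1 : ⟪A (k + 2) x, A (k + 2) (A (k + 3) f)⟫_ℂ = ⟪G, A (k + 3) f⟫_ℂ := by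
        rw [← hs, ← h3, ← h4]
      rw [f2, map_add, map_neg, map_smul, neg_add_eq_sub, norm_sub_rev, @norm_sub_sq ℂ,
        inner_smul_right, j1, norm_smul, norm_pow, hσn, ← h3, hσ, ← Complex.ofReal_pow]
      have : RCLike.re (((s ^ 2 : ℝ) : ℂ) * ⟪G, A (k + 3) f⟫_ℂ) =
          s ^ 2 * (⟪G, A (k + 3) f⟫_ℂ).re := Complex.re_ofReal_mul _ _
      rw [this]
      ring
    have i3 : ‖P h (k + 1)‖ ^ 2 = s ^ 2 * ‖G‖ ^ 2 := by rw [e1, norm_smul, hσn, mul_pow]
    have i4 : ‖P h (k + 6)‖ ^ 2 = s ^ 4 * ‖A (k + 5) (A (k + 4) f)‖ ^ 2 := by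
      rw [e6, norm_smul, norm_pow, hσn, mul_pow]; ring
    have i5 : ‖P h (k + 3)‖ = ‖Q h (k + 1)‖ := by rw [e3, f3]
    have i6 : ‖A (k + 3) f - G‖ ^ 2 = ‖A (k + 3) f‖ ^ 2 - 2 * (⟪G, A (k + 3) f⟫_ℂ).re + ‖G‖ ^ 2 := by
      rw [@norm_sub_sq ℂ, ← inner_conj_symm]
      have : RCLike.re ((starRingEnd ℂ) ⟪G, A (k + 3) f⟫_ℂ) = (⟪G, A (k + 3) f⟫_ℂ).re :=
        Complex.conj_re _
      rw [this]
    have i7 : 0 ≤ s ^ 4 * ‖A (k + 2) (A (k + 3) f)‖ ^ 2 := by positivity
    have i8 : s ^ 2 * (‖A (k + 3) f - G‖ ^ 2 + c) ≤ s ^ 2 * (s ^ 2 * K) := by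
      rw [i6, hK]
      rw [hnP, i1, i3, i4, i5] at hle
      rw [i2] at hnQ
      nlinarith [hle, hnQ, i7]
    have i9 : 0 < s ^ 2 := by positivity
    exact le_of_mul_le_mul_left i8 i9
  -- let the parameter tend to zero
  have hlim : ∀ c : ℝ, (∀ j, k = j + 1 → c ≤ ‖A j (g - A k x)‖ ^ 2) → (k = 0 → c = 0) →
      ‖A (k + 3) f - G‖ ^ 2 + c ≤ 0 := by
    intro c hc hc0
    by_contra hcon
    push Not at hcon
    have hK0 : 0 ≤ K := by rw [hK]; positivity
    set d : ℝ := ‖A (k + 3) f - G‖ ^ 2 + c with hd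
    have h5 := hmain (Real.sqrt (d / (2 * (K + 1)))) (Real.sqrt_pos.2 (by positivity)) c hc hc0
    rw [Real.sq_sqrt (by positivity), ← hd, div_mul_eq_mul_div, le_div_iff₀ (by positivity)] at h5
    nlinarith
  constructor
  · have h6 := hlim 0 (fun j _ => sq_nonneg _) (fun _ => rfl)
    have h7 : ‖A (k + 3) f - G‖ = 0 := by
      have := sq_nonneg ‖A (k + 3) f - G‖
      exact pow_eq_zero_iff (two_ne_zero) |>.1 (by linarith)
    exact sub_eq_zero.1 (norm_eq_zero.1 h7)
  · intro j hj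
    have h6 := hlim (‖A j (g - A k x)‖ ^ 2) (fun j' hj' => by
      have : j' = j := by omega
      rw [this]) (fun h0 => by omega)
    have h7 : ‖A j (g - A k x)‖ = 0 := by
      have := sq_nonneg ‖A (k + 3) f - G‖
      have := sq_nonneg ‖A j (g - A k x)‖
      exact pow_eq_zero_iff (two_ne_zero) |>.1 (by linarith)
    rw [norm_eq_zero, map_sub, sub_eq_zero] at h7
    exact h7

end Pool.Agent.R237.MS
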