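import Pool.Agent.R237.MS.Core

/-!
# Local propagation: induction and spectral decomposition
-/

set_option autoImplicit false

open scoped InnerProductSpace

namespace Pool.Agent.R237.MS

universe u

variable {V : Type u} [NormedAddCommGroup V] [InnerProductSpace ℂ V] [CompleteSpace V]

omit [CompleteSpace V] in
theorem eig_of_sq (B : V →L[ℂ] V) (hp : ∀ v, 0 ≤ (⟪v, B v⟫_ℂ).re) (a : ℝ) (ha : 0 < a) (x : V)
    (h : B (B x) = ((a : ℂ) ^ 2) • x) : B x = (a : ℂ) • x := by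
  set z : V := B x - (a : ℂ) • x with hz
  have h1 : B z = -((a : ℂ) • z) := by
    rw [hz, map_sub, map_smul, h, sq, mul_smul, smul_sub]
    abel
  have h2 := hp z
  rw [h1, inner_neg_right, inner_smul_right, inner_self_eq_norm_sq_to_K] at h2
  have h3 : (-((a : ℂ) * ((‖z‖ : ℝ) : ℂ) ^ 2)).re = -(a * ‖z‖ ^ 2) := by
    rw [← Complex.ofReal_pow, ← Complex.ofReal_mul, ← Complex.ofReal_neg, Complex.ofReal_re]
  have h4 : 0 ≤ -(a * ‖z‖ ^ 2) := by rw [← h3]; exact h2
  have h5 : ‖z‖ = 0 := by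
    by_contra h0
    have : 0 < a * ‖z‖ ^ 2 := by positivity
    linarith
  rw [norm_eq_zero, hz, sub_eq_zero] at h5
  exact h5

variable [FiniteDimensional ℂ V] {A : ℕ → V →L[ℂ] V} {T : LV V →L[ℂ] LV V}

theorem inj_of_pos (B : V →L[ℂ] V) (hp : ∀ v, v ≠ 0 → 0 < (⟪v, B v⟫_ℂ).re) :
    Function.Injective B := by
  intro u v huv
  by_contra hne
  have h1 := hp (u - v) (sub_ne_zero.2 hne)
  rw [map_sub, huv, sub_self, inner_zero_right] at h1
  simp at h1

theorem surj_of_pos (B : V →L[ℂ] V) (hp : ∀ v, v ≠ 0 → 0 < (⟪v, B v⟫_ℂ).re) :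
    Function.Surjective B :=
  (LinearMap.injective_iff_surjective (f := B.toLinearMap)).1 (inj_of_pos B hp)

/-- Eigenvectors. -/
theorem eig_all (hT : IsShift A T) (hs : ∀ n u v, ⟪A n u, v⟫_ℂ = ⟪u, A n v⟫_ℂ)
    (hp : ∀ n v, v ≠ 0 → 0 < (⟪v, A n v⟫_ℂ).re)
    (hq : ∀ l : ℂ, NormHypo (T + l • T ^ 2)) (a : ℝ) (ha : 0 < a) (x : V) (k : ℕ) (hk : 1 ≤ k)
    (h1 : A k x = (a : ℂ) • x) (h2 : A (k + 1) x = (a : ℂ) • x) :
    ∀ n, 1 ≤ n → A n x = (a : ℂ) • x := by
  have hp0 : ∀ n v, 0 ≤ (⟪v, A n v⟫_ℂ).re := by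
    intro n v
    by_cases hv : v = 0
    · rw [hv]; simp
    · exact (hp n v hv).le
  have hac : (a : ℂ) ≠ 0 := by exact_mod_cast ha.ne'
  have step : ∀ m : ℕ, A (m + 1) x = (a : ℂ) • x → A (m + 2) x = (a : ℂ) • x →
      A (m + 3) x = (a : ℂ) • x ∧ ∀ j, m = j + 1 → A m x = (a : ℂ) • x := by
    intro m e1 e2
    obtain ⟨g, hg⟩ := surj_of_pos (A m) (hp m) (((a : ℂ) ^ 2) • x)
    have e3 : A (m + 1) (A (m + 1) x) = ((a : ℂ) ^ 2) • x := by
      rw [e1, map_smul, e1, smul_smul, sq]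
    have e4 : A (m + 2) (A (m + 1) x) = ((a : ℂ) ^ 2) • x := by
      rw [e1, map_smul, e2, smul_smul, sq]
    obtain ⟨r1, r2⟩ := key hT hs hq m x ((a : ℂ)⁻¹ • x) g
      (by rw [map_smul, e1, smul_smul, inv_mul_cancel₀ hac, one_smul])
      (by rw [map_smul, e2, smul_smul, inv_mul_cancel₀ hac, one_smul])
      (by rw [e1, e2]) (by rw [e3, e4]) (by rw [hg, e3])
    refine ⟨eig_of_sq _ (hp0 _) a ha x (by rw [r1, e3]), fun j hj => ?_⟩
    have r3 := inj_of_pos (A j) (hp j) (r2 j hj)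
    refine eig_of_sq _ (hp0 _) a ha x ?_
    rw [← r3, hg]
  have hup : ∀ n, A (k + n) x = (a : ℂ) • x ∧ A (k + n + 1) x = (a : ℂ) • x := by
    intro n
    induction n with
    | zero => exact ⟨h1, h2⟩
    | succ n ih =>
      obtain ⟨m, hm⟩ : ∃ m, k + n = m + 1 := ⟨k + n - 1, by omega⟩
      rw [hm] at ih
      have := (step m ih.1 ih.2).1
      constructor
      · rw [show k + (n + 1) = m + 2 by omega]; exact ih.2
      · rw [show k + (n + 1) + 1 = m + 3 by omega]; exact this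
  have hdown : ∀ n, 1 ≤ k - n → A (k - n) x = (a : ℂ) • x ∧ A (k - n + 1) x = (a : ℂ) • x := by
    intro n
    induction n with
    | zero => intro _; exact ⟨h1, h2⟩
    | succ n ih =>
      intro hn
      obtain ⟨i1, i2⟩ := ih (by omega)
      obtain ⟨j, hj⟩ : ∃ j, k - (n + 1) = j + 1 := ⟨k - (n + 1) - 1, by omega⟩
      have hm : k - n = (j + 1) + 1 := by omega
      rw [hm] at i1 i2
      have := (step (j + 1) i1 i2).2 j rfl
      rw [hj]
      exact ⟨this, i1⟩
  intro n hn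
  by_cases hkn : k ≤ n
  · have := (hup (n - k)).1
    rwa [show k + (n - k) = n by omega] at this
  · have := (hdown (k - n) (by omega)).1
    rwa [show k - (k - n) = n by omega] at this

/-- **Local propagation.** -/
theorem propagation (hT : IsShift A T) (hs : ∀ n u v, ⟪A n u, v⟫_ℂ = ⟪u, A n v⟫_ℂ)
    (hp : ∀ n v, v ≠ 0 → 0 < (⟪v, A n v⟫_ℂ).re)
    (hq : ∀ l : ℂ, NormHypo (T + l • T ^ 2)) (x : V) (k : ℕ) (hk : 1 ≤ k)
    (hx : A k x = A (k + 1) x) : ∀ n, 1 ≤ n → A n x = A 1 x := by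
  -- hyponormality of `T`
  have hmono : ∀ v, ‖A k v‖ ≤ ‖A (k + 1) v‖ := by
    intro v
    have h0 := hq 0
    rw [zero_smul, add_zero] at h0
    have h1 := h0 (lp.single 2 (k + 1) v)
    have h2 : ‖T (lp.single 2 (k + 1) v)‖ = ‖A (k + 1) v‖ := by
      rw [shift_single hT]
      exact lp.norm_single (by norm_num) _ _
    have h3 : ‖A k v‖ ≤ ‖ContinuousLinearMap.adjoint T (lp.single 2 (k + 1) v)‖ := by
      have h4 := lp.norm_apply_le_norm (p := 2) (by norm_num)
        (ContinuousLinearMap.adjoint T (lp.single 2 (k + 1) v)) k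
      rw [adjoint_apply hT hs, lp.single_apply_self] at h4
      exact h4
    exact h3.trans (h1.trans h2.le)
  -- the difference of squares
  let S : V →L[ℂ] V := A (k + 1) ∘L A (k + 1) - A k ∘L A k
  have hS : ∀ v, S v = A (k + 1) (A (k + 1) v) - A k (A k v) := fun v => rfl
  have hSs : ∀ u v, ⟪S u, v⟫_ℂ = ⟪u, S v⟫_ℂ := by
    intro u v
    rw [hS, hS, inner_sub_left, inner_sub_right, hs, hs, hs, hs]
  have hSv : ∀ v, (⟪v, S v⟫_ℂ).re = ‖A (k + 1) v‖ ^ 2 - ‖A k v‖ ^ 2 := by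
    intro v
    have h1 : ∀ w : V, (⟪w, w⟫_ℂ).re = ‖w‖ ^ 2 := by
      intro w
      rw [inner_self_eq_norm_sq_to_K]
      exact (congrArg Complex.re (Complex.ofReal_pow ‖w‖ 2).symm).trans (Complex.ofReal_re _)
    rw [hS, inner_sub_right, ← hs (k + 1) v (A (k + 1) v), ← hs k v (A k v), Complex.sub_re,
      h1, h1]
  have hSp : ∀ v, 0 ≤ (⟪v, S v⟫_ℂ).re := by
    intro v
    rw [hSv, sub_nonneg]
    gcongr
    exact hmono v
  have hS0 : ∀ v, A k v = A (k + 1) v → S v = 0 := by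
    intro v hv
    have h1 : (⟪v, S v⟫_ℂ).re = 0 := by rw [hSv, hv, sub_self]
    have h2 := Pool.Agent.R237.NH.cs_pos S hSs hSp (S v) v
    rw [h1, mul_zero] at h2
    have h3 : ‖⟪S v, S v⟫_ℂ‖ = 0 := by
      have := sq_nonneg ‖⟪S v, S v⟫_ℂ‖
      exact pow_eq_zero_iff (two_ne_zero) |>.1 (by linarith)
    rw [norm_eq_zero, inner_self_eq_zero] at h3
    exact h3
  -- the invariant subspace
  let N : Submodule ℂ V := LinearMap.ker (A (k + 1) - A k).toLinearMap
  have hN : ∀ v, v ∈ N ↔ A k v = A (k + 1) v := by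
    intro v
    rw [LinearMap.mem_ker]
    change A (k + 1) v - A k v = 0 ↔ _
    rw [sub_eq_zero, eq_comm]
  have hNinv : ∀ v ∈ N, (A k).toLinearMap v ∈ N := by
    intro v hv
    rw [hN] at hv
    rw [hN]
    change A k (A k v) = A (k + 1) (A k v)
    have := hS0 v hv
    rw [hS, sub_eq_zero] at this
    rw [← this, hv]
  have hsymA : (A k).toLinearMap.IsSymmetric := fun u v => hs k u v
  have hsymN := hsymA.restrict_invariant hNinv
  let b := hsymN.eigenvectorBasis rfl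
  have hb : ∀ i n, 1 ≤ n → A n (b i : V) = A 1 (b i : V) := by
    intro i n hn
    have e1 : A k (b i : V) = ((hsymN.eigenvalues rfl i : ℝ) : ℂ) • (b i : V) := by
      have := hsymN.apply_eigenvectorBasis rfl i
      exact congrArg Subtype.val this
    have hbne : (b i : V) ≠ 0 := by
      intro h0
      have h1 : ‖b i‖ = 1 := b.orthonormal.1 i
      have h2 : b i = 0 := Subtype.ext h0
      rw [h2, norm_zero] at h1
      exact zero_ne_one h1
    have ha : 0 < hsymN.eigenvalues rfl i := by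
      have h1 := hp k (b i) hbne
      rw [e1, inner_smul_right, inner_self_eq_norm_sq_to_K] at h1
      have h2 : (((hsymN.eigenvalues rfl i : ℝ) : ℂ) * ((‖(b i : V)‖ : ℝ) : ℂ) ^ 2).re =
          hsymN.eigenvalues rfl i * ‖(b i : V)‖ ^ 2 := by
        rw [← Complex.ofReal_pow, ← Complex.ofReal_mul, Complex.ofReal_re]
      have h3 : 0 < hsymN.eigenvalues rfl i * ‖(b i : V)‖ ^ 2 := by rw [← h2]; exact h1
      exact pos_of_mul_pos_left h3 (by positivity)
    have e2 : A (k + 1) (b i : V) = ((hsymN.eigenvalues rfl i : ℝ) : ℂ) • (b i : V) := by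
      rw [← (hN _).1 (b i).2, e1]
    have hall := eig_all hT hs hp hq _ ha (b i) k hk e1 e2
    rw [hall n hn, hall 1 le_rfl]
  intro n hn
  have hxN : x ∈ N := (hN x).2 hx
  have hsum : x = ∑ i, b.repr ⟨x, hxN⟩ i • (b i : V) := by
    have := congrArg (fun z : N => (z : V)) (b.sum_repr ⟨x, hxN⟩)
    simp only [Submodule.coe_sum, Submodule.coe_smul] at this
    exact this.symm
  rw [hsum, map_sum, map_sum]
  refine Finset.sum_congr rfl fun i _ => ?_
  rw [map_smul, map_smul, hb i n hn]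

end Pool.Agent.R237.MS
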