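import Pool.Agent.R237.MS.Main

/-!
# Backward local propagation for matrix-valued weighted shifts

Let `W` be a cubically hyponormal matrix-valued weighted shift with positive invertible weights
`A 0, A 1, …`. If `A k x = A (k + 1) x` for some `k ≥ 1`, then `A n x = A 1 x` for every `n ≥ 1`.
This is the positive answer to Q1. In fact quadratic hyponormality is enough, and the proof gives
forward and backward propagation at once.

Idea of the proof. The set of all `x` with `A k x = A (k + 1) x` is invariant under `A k`, so one may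
assume `A k x = A (k + 1) x = a x`. Write `B = A (k - 1)`, `C = A (k - 2)`, `E = A (k + 2)`. Test the
hyponormality of `W + s W ^ 2` on the vector with entries `s B⁻¹ (a² x)`, `-x`, `(s a)⁻¹ x`, `-x`,
`s E x` at the places `k - 1, …, k + 3`. The terms of order at most `s` cancel, and the terms of
order `s ^ 2` give `‖E² x - a² x‖² + ‖C (B x - B⁻¹ (a² x))‖² ≤ 0`.
-/

set_option autoImplicit false

open scoped InnerProductSpace ComplexOrder

namespace Pool.Agent.R237.MS.Mat

/-- The space `ℓ²(ℂ^p)`. -/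
abbrev ELL (p : ℕ) : Type := lp (fun _ : ℕ => EuclideanSpace ℂ (Fin p)) 2

/-- The action of a matrix on `ℂ^p`. -/
noncomputable def act {p : ℕ} (M : Matrix (Fin p) (Fin p) ℂ) (x : EuclideanSpace ℂ (Fin p)) :
    EuclideanSpace ℂ (Fin p) := WithLp.toLp 2 (M.mulVec (WithLp.ofLp x))

/-- `W` is the matrix-valued weighted shift with weights `A n`:
`W (x₀, x₁, …) = (0, A₀ x₀, A₁ x₁, …)`. -/
def IsWeightedShift {p : ℕ} (A : ℕ → Matrix (Fin p) (Fin p) ℂ) (W : ELL p →L[ℂ] ELL p) : Prop :=
  ∀ h : ELL p, W h 0 = 0 ∧ ∀ n : ℕ, W h (n + 1) = act (A n) (h n)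

/-- For bounded weights the weighted shift exists, so the statement below is not empty. -/
theorem exists_weightedShift {p : ℕ} (A : ℕ → Matrix (Fin p) (Fin p) ℂ) (C : ℝ)
    (hC : ∀ n x, ‖act (A n) x‖ ≤ C * ‖x‖) : ∃ W : ELL p →L[ℂ] ELL p, IsWeightedShift A W := by
  let F : ELL p → ∀ _ : ℕ, EuclideanSpace ℂ (Fin p) := fun h n =>
    Nat.casesOn n 0 (fun m => act (A m) (h m))
  have hF0 : ∀ h, F h 0 = 0 := fun h => rfl
  have hFs : ∀ h n, F h (n + 1) = act (A n) (h n) := fun h n => rfl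
  have hsum : ∀ h : ELL p, Summable fun n => ‖F h n‖ ^ 2 := by
    intro h
    rw [← summable_nat_add_iff 1]
    have h1 : Summable fun n => C ^ 2 * ‖h n‖ ^ 2 :=
      (Pool.Agent.R237.MS.hasSum_sq h).summable.mul_left _
    refine Summable.of_nonneg_of_le (fun n => sq_nonneg _) (fun n => ?_) h1
    rw [hFs, ← mul_pow]
    exact pow_le_pow_left₀ (norm_nonneg _) (hC n _) 2
  have hmem : ∀ h : ELL p, Memℓp (F h) 2 := by
    intro h
    rw [memℓp_gen_iff (by norm_num)]
    simpa using hsum h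
  have hadd : ∀ (M : Matrix (Fin p) (Fin p) ℂ) x y, act M (x + y) = act M x + act M y := by
    intro M x y
    simp [act, Matrix.mulVec_add]
  have hsmul : ∀ (M : Matrix (Fin p) (Fin p) ℂ) (c : ℂ) x, act M (c • x) = c • act M x := by
    intro M c x
    simp [act, Matrix.mulVec_smul]
  let L : ELL p →ₗ[ℂ] ELL p :=
    { toFun := fun h => ⟨F h, hmem h⟩
      map_add' := fun h g => by
        ext n
        rcases n with _ | n
        · change F (h + g) 0 _ = (F h 0 + F g 0) _
          rw [hF0, hF0, hF0, add_zero]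
        · change F (h + g) (n + 1) _ = (F h (n + 1) + F g (n + 1)) _
          rw [hFs, hFs, hFs, ← hadd]
          rfl
      map_smul' := fun c h => by
        ext n
        rcases n with _ | n
        · change F (c • h) 0 _ = (c • F h 0) _
          rw [hF0, hF0, smul_zero]
        · change F (c • h) (n + 1) _ = (c • F h (n + 1)) _
          rw [hFs, hFs, ← hsmul]
          rfl }
  refine ⟨L.mkContinuous (|C|) fun h => ?_, fun h => ⟨rfl, fun n => rfl⟩⟩
  have h1 := Pool.Agent.R237.MS.hasSum_sq (L h)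
  have h2 : HasSum (fun n => ‖F h (n + 1)‖ ^ 2) (‖L h‖ ^ 2) := by
    have := (hasSum_nat_add_iff' 1).2 h1
    simpa [hF0, L] using this
  have h3 : HasSum (fun n => C ^ 2 * ‖h n‖ ^ 2) (C ^ 2 * ‖h‖ ^ 2) :=
    (Pool.Agent.R237.MS.hasSum_sq h).mul_left _
  have h4 : ‖L h‖ ^ 2 ≤ (|C| * ‖h‖) ^ 2 := by
    rw [mul_pow, sq_abs]
    refine hasSum_le (fun n => ?_) h2 h3
    rw [hFs, ← mul_pow]
    exact pow_le_pow_left₀ (norm_nonneg _) (hC n _) 2
  exact (sq_le_sq₀ (norm_nonneg _) (by positivity)).1 h4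

/-- Local propagation for matrix-valued weighted shifts. -/
theorem norm_propagation {p : ℕ} (A : ℕ → Matrix (Fin p) (Fin p) ℂ)
    (hA : ∀ n, (A n).PosDef) (W : ELL p →L[ℂ] ELL p) (hW : IsWeightedShift A W)
    (hq : ∀ l : ℂ, Pool.Agent.R237.MS.NormHypo (W + l • W ^ 2))
    (x : EuclideanSpace ℂ (Fin p)) (k : ℕ) (hk : 1 ≤ k)
    (hx : act (A k) x = act (A (k + 1)) x) : ∀ n : ℕ, 1 ≤ n → act (A n) x = act (A 1) x := by
  let B : ℕ → EuclideanSpace ℂ (Fin p) →L[ℂ] EuclideanSpace ℂ (Fin p) := fun n =>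
    Matrix.toEuclideanCLM (𝕜 := ℂ) (n := Fin p) (A n)
  have hB : ∀ n x, B n x = act (A n) x := fun n x => rfl
  have hBs : ∀ n u v, ⟪B n u, v⟫_ℂ = ⟪u, B n v⟫_ℂ := by
    intro n u v
    have h1 : IsSelfAdjoint (B n) := by
      have := (hA n).isHermitian
      rw [IsSelfAdjoint, ← map_star, Matrix.star_eq_conjTranspose, this]
    have h2 := ContinuousLinearMap.adjoint_inner_left (B n) v u
    rw [← h2, ← ContinuousLinearMap.star_eq_adjoint, h1.star_eq]
  have hBp : ∀ n v, v ≠ 0 → 0 < (⟪v, B n v⟫_ℂ).re := by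
    intro n v hv
    have h1 : WithLp.ofLp v ≠ 0 := by
      intro h0
      exact hv (by rw [← WithLp.toLp_ofLp 2 v, h0]; rfl)
    have h2 := (hA n).dotProduct_mulVec_pos h1
    have h3 : ⟪v, B n v⟫_ℂ = star (WithLp.ofLp v) ⬝ᵥ (A n).mulVec (WithLp.ofLp v) := by
      rw [hB, EuclideanSpace.inner_eq_star_dotProduct, dotProduct_comm]
      rfl
    rw [h3]
    exact (RCLike.pos_iff.1 h2).1
  have hshift : Pool.Agent.R237.MS.IsShift B W := hW
  intro n hn
  exact Pool.Agent.R237.MS.propagation hshift hBs hBp hq x k hk hx n hn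

/-- From the operator inequality to the norm inequality. -/
theorem norm_of_inner {H : Type} [NormedAddCommGroup H] [InnerProductSpace ℂ H] [CompleteSpace H]
    (P : H →L[ℂ] H) (x : H) (h : 0 ≤ (⟪x, ContinuousLinearMap.adjoint P (P x) -
      P (ContinuousLinearMap.adjoint P x)⟫_ℂ).re) : ‖ContinuousLinearMap.adjoint P x‖ ≤ ‖P x‖ := by
  have h0 : ∀ w : H, (⟪w, w⟫_ℂ).re = ‖w‖ ^ 2 := by
    intro w
    rw [inner_self_eq_norm_sq_to_K]
    exact (congrArg Complex.re (Complex.ofReal_pow ‖w‖ 2).symm).trans (Complex.ofReal_re _)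
  rw [inner_sub_right, ContinuousLinearMap.adjoint_inner_right,
    ← ContinuousLinearMap.adjoint_inner_left P (ContinuousLinearMap.adjoint P x) x,
    Complex.sub_re, h0, h0] at h
  exact (sq_le_sq₀ (norm_nonneg _) (norm_nonneg _)).1 (by linarith)

end Pool.Agent.R237.MS.Mat
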